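import Pool.Agent.H.MP_b28609_co.Gap.K.Main

/-!
# MP_b28609_co: the patrolling domination number of long grids
-/

set_option autoImplicit false

namespace Pool.Agent.Results.MP_b28609_co.ExactLong

open PatDom

/-- The exact patrolling domination number of long grids, in terms of the domination number: an upper
bound for all grids with both sides at least `22`, and the matching lower bound for
`30 ≤ m` and `80 * m + 18000 ≤ n`. -/
theorem result :
    (∀ m n : ℕ, 22 ≤ m → 22 ≤ n → pnum (grid m n) + 6 ≤ (m + 2) * (n + 3) / 5) ∧
    (∀ m n : ℕ, 30 ≤ m → 80 * m + 18000 ≤ n →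
      dnum (grid m (n + 1)) ≤ pnum (grid m n) + 2 ∧
      (dnum (grid m (n + 1)) = (m + 2) * (n + 3) / 5 - 4 →
        pnum (grid m n) = (m + 2) * (n + 3) / 5 - 6)) :=
  PatGap.exactK

end Pool.Agent.Results.MP_b28609_co.ExactLong
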