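import Pool.Agent.H.MP_b28609_co.Narrow8
import Pool.Agent.H.MP_b28609_co.Val

/-!
# MP_b28609_co: exact values for all grids whose shorter side is at most 8
-/

set_option autoImplicit false

namespace Pool.Agent.Results.MP_b28609_co.ExactNarrow

open PatDom

/-- The exact patrolling domination number of all grids whose shorter side is at most `8`. -/
theorem result (m n : ℕ) (h1 : 1 ≤ m) (h8 : m ≤ 8) (hmn : m ≤ n) (h2 : 2 ≤ m * n) :
    pnum (grid m n) = nval m n ∧ pnum (grid n m) = nval m n := by
  have key : pnum (grid m n) = nval m n := by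
    have hcase : m = 1 ∨ m = 2 ∨ m = 3 ∨ m = 4 ∨ m = 5 ∨ m = 6 ∨ m = 7 ∨ m = 8 := by omega
    rcases hcase with rfl | rfl | rfl | rfl | rfl | rfl | rfl | rfl
    · exact exact1 n (by omega)
    · exact exact2 n hmn
    · exact exact3 n hmn
    · exact exact4 n hmn
    · exact exact5 n hmn
    · exact exact6 n hmn
    · exact exact7 n hmn
    · exact exact8 n hmn
  exact ⟨key, (pnum_comm n m).trans key⟩

end Pool.Agent.Results.MP_b28609_co.ExactNarrow
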