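import Pool.Agent.H.MP_b28609_co.GenG
import Pool.Agent.H.MP_b28609_co.Iso

/-!
# MP_b28609_co: bounds by the domination numbers of two consecutive grids
-/

set_option autoImplicit false

namespace Pool.Agent.Results.MP_b28609_co.GeneralBounds

open PatDom

/-- For every finite graph `G` and `n ≥ 2`, the patrolling domination number of `G □ P_n` lies
between the domination numbers of `G □ P_n` and `G □ P_{n+1}`; in particular for all grids, in both
directions. -/
theorem result :
    (∀ (V : Type) [Fintype V] (G : SimpleGraph V) (n : ℕ), 2 ≤ n →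
      dnum (SimpleGraph.boxProd G (SimpleGraph.pathGraph n)) ≤
          pnum (SimpleGraph.boxProd G (SimpleGraph.pathGraph n)) ∧
        pnum (SimpleGraph.boxProd G (SimpleGraph.pathGraph n)) ≤
          dnum (SimpleGraph.boxProd G (SimpleGraph.pathGraph (n + 1)))) ∧
    ∀ m n : ℕ, 2 ≤ m → 2 ≤ n →
      (∃ D : Finset (Fin m × Fin n), Patrol (grid m n) D ∧ D.card = pnum (grid m n)) ∧
      dnum (grid m n) ≤ pnum (grid m n) ∧
      pnum (grid m n) ≤ min (dnum (grid m (n + 1))) (dnum (grid (m + 1) n)) := by
  refine ⟨?_, ?_⟩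
  · intro V _ G n hn
    exact (gen_main G n hn).2
  · intro m n hm hn
    obtain ⟨h1, h2, h3⟩ := gen_main (SimpleGraph.pathGraph m) n hn
    obtain ⟨-, -, k3⟩ := gen_main (SimpleGraph.pathGraph n) m hm
    refine ⟨h1, h2, le_min h3 ?_⟩
    have e1 : pnum (grid m n) = pnum (grid n m) := pnum_comm m n
    have e2 : dnum (grid (m + 1) n) = dnum (grid n (m + 1)) := dnum_comm (m + 1) n
    rw [e1, e2]
    exact k3

end Pool.Agent.Results.MP_b28609_co.GeneralBounds
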