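import Pool.Agent.H.MP_b28609_co.Gap.Main2

/-!
# MP_b28609_co: the difference of the patrolling and the ordinary domination number of a grid
-/

set_option autoImplicit false

namespace Pool.Agent.Results.MP_b28609_co.LinearGap

open PatDom

/-- For all grids, the patrolling domination number exceeds the domination number by an amount of
order `min m n`; when `480 * min m n ≤ max m n` the difference is `min m n / 5` up to a
constant. -/
theorem result (m n : ℕ) (hm : 1 ≤ m) (hn : 1 ≤ n) (hmn : 2 ≤ m * n) :
    min (((min m n : ℕ) : ℝ) / 5) (((max m n : ℕ) : ℝ) / 2400) - 104 ≤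
        (pnum (grid m n) : ℝ) - dnum (grid m n) ∧
      (pnum (grid m n) : ℝ) - dnum (grid m n) ≤ ((min m n : ℕ) : ℝ) / 5 + 51 :=
  PatGap.gap2 m n hm hn hmn

end Pool.Agent.Results.MP_b28609_co.LinearGap
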